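import Pool.Agent.Helper35.PM.Defs2
import Pool.Agent.Helper79.PM.Expect

/-!
PM-17, PM-18, PM-19: upper bounds for the expected numbers of owned active columns, of unclean and
of near triples.
-/

set_option autoImplicit false

namespace Pool.Agent.Helper35.PM

open Finset
open scoped Classical

/-- counting through a family of witnesses -/
theorem card_le_sum_ind {α ι : Type} (T : Finset α) (I : Finset ι) (φ : ι → α) (P : ι → Prop)
    [DecidablePred P] (h : ∀ t ∈ T, ∃ i ∈ I, P i ∧ φ i = t) :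
    (T.card : ℝ) ≤ ∑ i ∈ I, if P i then (1 : ℝ) else 0 := by
  have h1 : T ⊆ (I.filter P).image φ := by
    intro t ht
    obtain ⟨i, hi, hP, he⟩ := h t ht
    exact Finset.mem_image.2 ⟨i, Finset.mem_filter.2 ⟨hi, hP⟩, he⟩
  have h2 : T.card ≤ (I.filter P).card := (Finset.card_le_card h1).trans Finset.card_image_le
  calc (T.card : ℝ) ≤ ((I.filter P).card : ℝ) := by exact_mod_cast h2
    _ = ∑ i ∈ I, if P i then (1 : ℝ) else 0 := by
      rw [Finset.sum_ite, Finset.sum_const_zero, add_zero, Finset.sum_const, nsmul_eq_mul, mul_one]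

/-- PM-17 -/
theorem Ex_act2_le {V : Type} [Fintype V] (s : Sys V) (Λ D η : ℝ) (q : ℕ)
    (hs : s.OK Λ D η q) (p : ℝ) (hp : 0 < p) (h1 : p ≤ 1) :
    Ex p s.B (fun X => (s.act2 X : ℝ)) ≤ Λ * (p * D) * (q * p * s.B.card) := by
  -- the index set: x, a, y
  let I : Finset (V × V × V) := (s.B ×ˢ (univ ×ˢ univ)).filter fun t =>
    t.2.1 ∈ s.S t.1 ∧ t.2.2 ∈ s.N t.2.1 ∧ t.2.2 ≠ t.1
  have hI : (I.card : ℝ) ≤ s.B.card * (q * (Λ * D)) := by
    have e1 : I ⊆ s.B.biUnion fun x => (s.S x).biUnion fun a =>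
        (s.N a).image fun y => (x, a, y) := by
      rintro ⟨x, a, y⟩ ht
      simp only [I, Finset.mem_filter, Finset.mem_product, Finset.mem_univ, and_true] at ht
      simp only [Finset.mem_biUnion, Finset.mem_image]
      exact ⟨x, ht.1, a, ht.2.1, y, ht.2.2.1, rfl⟩
    have e2 : (I.card : ℝ) ≤ ∑ x ∈ s.B, ∑ a ∈ s.S x, ((s.N a).card : ℝ) := by
      have := (Finset.card_le_card e1).trans Finset.card_biUnion_le
      have h3 : I.card ≤ ∑ x ∈ s.B, ∑ a ∈ s.S x, (s.N a).card := by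
        refine this.trans (Finset.sum_le_sum fun x _ => ?_)
        refine Finset.card_biUnion_le.trans (Finset.sum_le_sum fun a _ => ?_)
        exact Finset.card_image_le
      exact_mod_cast h3
    refine e2.trans ?_
    have hD : 0 ≤ Λ * D := by
      obtain ⟨b, hb⟩ := hs.rows_ne
      exact le_trans (Nat.cast_nonneg _) (hs.back_card b hb)
    calc ∑ x ∈ s.B, ∑ a ∈ s.S x, ((s.N a).card : ℝ)
        ≤ ∑ x ∈ s.B, (q : ℝ) * (Λ * D) := by
          refine Finset.sum_le_sum fun x hx => ?_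
          calc ∑ a ∈ s.S x, ((s.N a).card : ℝ) ≤ ∑ a ∈ s.S x, Λ * D :=
                Finset.sum_le_sum fun a ha => hs.card_le a (hs.own x hx a ha).1
            _ = (s.S x).card * (Λ * D) := by rw [Finset.sum_const, nsmul_eq_mul]
            _ ≤ (q : ℝ) * (Λ * D) := by
              refine mul_le_mul_of_nonneg_right ?_ hD
              exact_mod_cast hs.own_card x hx
      _ = s.B.card * (q * (Λ * D)) := by rw [Finset.sum_const, nsmul_eq_mul]
  have hmono : Ex p s.B (fun X => (s.act2 X : ℝ)) ≤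
      Ex p s.B (fun X => ∑ t ∈ I, if ({t.1, t.2.2} : Finset V) ⊆ X then (1 : ℝ) else 0) := by
    refine Ex_mono p hp.le h1 s.B _ _ fun X hX => ?_
    have h3 : (s.act2 X : ℝ) = (((X ×ˢ s.A).filter fun r => r.2 ∈ s.own X r.1).card : ℝ) := by
      unfold Sys.act2
      refine congrArg (Nat.cast (R := ℝ)) ?_
      rw [Finset.card_filter, Finset.sum_product]
      refine Finset.sum_congr rfl fun x _ => ?_
      rw [← Finset.card_filter]
      congr 1
      ext a
      simp only [Sys.own, Sys.Act, Finset.mem_filter]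
      tauto
    rw [h3]
    refine card_le_sum_ind _ I (fun t => (t.1, t.2.1)) _ ?_
    rintro ⟨x, a⟩ hr
    simp only [Finset.mem_filter, Finset.mem_product, Sys.own, Sys.Act] at hr
    obtain ⟨⟨hx, ha⟩, ⟨-, hc, -, -⟩, haS⟩ := hr
    have hxB := hX hx
    have hxN := (hs.own x hxB a haS).2.1
    have hxm : x ∈ s.N a ∩ X := Finset.mem_inter.2 ⟨hxN, hx⟩
    obtain ⟨y, hy, hyx⟩ := Finset.exists_mem_ne (s := s.N a ∩ X) (by rw [hc]; norm_num) x
    rw [Finset.mem_inter] at hy
    refine ⟨(x, a, y), ?_, ?_, rfl⟩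
    · simp only [I, Finset.mem_filter, Finset.mem_product, Finset.mem_univ, and_true]
      exact ⟨hxB, haS, hy.1, hyx⟩
    · intro z hz
      simp only [Finset.mem_insert, Finset.mem_singleton] at hz
      rcases hz with rfl | rfl
      · exact hx
      · exact hy.2
  refine hmono.trans ?_
  rw [Ex_sum]
  have h4 : ∀ t ∈ I, Ex p s.B (fun X => if ({t.1, t.2.2} : Finset V) ⊆ X then (1 : ℝ) else 0) =
      p ^ 2 := by
    rintro ⟨x, a, y⟩ ht
    simp only [I, Finset.mem_filter, Finset.mem_product, Finset.mem_univ, and_true] at ht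
    have hyB : y ∈ s.B := (Finset.mem_filter.1 ht.2.2.1).1
    rw [Ex_subset p s.B {x, y} (by
      intro z hz
      simp only [Finset.mem_insert, Finset.mem_singleton] at hz
      rcases hz with rfl | rfl
      · exact ht.1
      · exact hyB)]
    rw [Finset.card_pair (Ne.symm ht.2.2.2)]
  rw [Finset.sum_congr rfl h4, Finset.sum_const, nsmul_eq_mul]
  calc (I.card : ℝ) * p ^ 2 ≤ (s.B.card * (q * (Λ * D))) * p ^ 2 :=
        mul_le_mul_of_nonneg_right hI (by positivity)
    _ = Λ * (p * D) * (q * p * s.B.card) := by ring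

theorem act_le_act2 {V : Type} [Fintype V] (s : Sys V) (X : Finset V) :
    (s.Act X).card ≤ s.act2 X := by
  have h1 : s.Act X ⊆ X.biUnion fun x => s.own X x := by
    intro a ha
    obtain ⟨hA, hc, hF, x, hx, hS⟩ := Finset.mem_filter.1 ha
    exact Finset.mem_biUnion.2 ⟨x, (Finset.mem_inter.1 hx).2, Finset.mem_filter.2 ⟨ha, hS⟩⟩
  exact (Finset.card_le_card h1).trans Finset.card_biUnion_le

/-- PM-18 -/
theorem EE_unclean_le {V : Type} [Fintype V] (s : Sys V) (Λ D η : ℝ) (q : ℕ)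
    (hs : s.OK Λ D η q) (p : ℝ) (hp : 0 < p) (h1 : p ≤ 1 / 4) :
    EE p s.B (fun Y Z => (((s.TP Y Z).filter fun r => ¬ s.Clean (Y ∪ Z) r.1).card : ℝ)) ≤
      4 * q ^ 3 * η * (p * D) * (p * s.B.card) := by
  -- the index set: x, a'', (a, a'), z
  let I : Finset (V × V × V × V × V) := (s.B ×ˢ (univ ×ˢ (univ ×ˢ (univ ×ˢ univ)))).filter fun t =>
    t.2.1 ∈ s.S t.1 ∧ t.2.2.1 ∈ s.S t.1 ∧ t.2.2.2.1 ∈ s.S t.1 ∧ t.2.2.1 ≠ t.2.2.2.1 ∧
      t.2.2.2.2 ∈ s.N t.2.2.1 ∩ s.N t.2.2.2.1 ∧ t.2.2.2.2 ≠ t.1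
  have hηD : 0 ≤ η * D := mul_nonneg hs.eta_pos.le (zero_le_one.trans hs.one_le)
  have hI : (I.card : ℝ) ≤ s.B.card * (q * (q * (q * (η * D)))) := by
    have e1 : I ⊆ s.B.biUnion fun x => (s.S x).biUnion fun b => (s.S x).biUnion fun a =>
        (s.S x).biUnion fun a' => if a = a' then ∅ else
          (s.N a ∩ s.N a').image fun z => (x, b, a, a', z) := by
      rintro ⟨x, b, a, a', z⟩ ht
      simp only [I, Finset.mem_filter, Finset.mem_product, Finset.mem_univ, and_true] at ht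
      obtain ⟨hx, hb, ha, ha', hne, hz, hzx⟩ := ht
      simp only [Finset.mem_biUnion]
      refine ⟨x, hx, b, hb, a, ha, a', ha', ?_⟩
      rw [if_neg hne]
      exact Finset.mem_image.2 ⟨z, hz, rfl⟩
    have e2 : (I.card : ℝ) ≤ ∑ x ∈ s.B, ∑ b ∈ s.S x, ∑ a ∈ s.S x, ∑ a' ∈ s.S x,
        (η * D) := by
      have h3 : I.card ≤ ∑ x ∈ s.B, ∑ b ∈ s.S x, ∑ a ∈ s.S x, ∑ a' ∈ s.S x,
          (if a = a' then (∅ : Finset (V × V × V × V × V)) else
            (s.N a ∩ s.N a').image fun z => (x, b, a, a', z)).card := by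
        refine ((Finset.card_le_card e1).trans Finset.card_biUnion_le).trans
          (Finset.sum_le_sum fun x _ => ?_)
        refine Finset.card_biUnion_le.trans (Finset.sum_le_sum fun b _ => ?_)
        refine Finset.card_biUnion_le.trans (Finset.sum_le_sum fun a _ => ?_)
        exact Finset.card_biUnion_le
      refine le_trans (Nat.cast_le.2 h3) ?_
      push_cast
      refine Finset.sum_le_sum fun x hx => Finset.sum_le_sum fun b _ =>
        Finset.sum_le_sum fun a ha => Finset.sum_le_sum fun a' ha' => ?_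
      by_cases hne : a = a'
      · rw [if_pos hne]
        simpa using hηD
      · rw [if_neg hne]
        refine le_trans (Nat.cast_le.2 Finset.card_image_le) ?_
        exact hs.overlap a (hs.own x hx a ha).1 a' (hs.own x hx a' ha').1 hne
    refine e2.trans ?_
    simp only [Finset.sum_const, nsmul_eq_mul]
    calc ∑ x ∈ s.B, ((s.S x).card : ℝ) * ((s.S x).card * ((s.S x).card * (η * D)))
        ≤ ∑ x ∈ s.B, (q : ℝ) * (q * (q * (η * D))) := by
          refine Finset.sum_le_sum fun x hx => ?_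
          have hq : ((s.S x).card : ℝ) ≤ q := by exact_mod_cast hs.own_card x hx
          gcongr
      _ = s.B.card * (q * (q * (q * (η * D)))) := by rw [Finset.sum_const, nsmul_eq_mul]
  have hmono : EE p s.B (fun Y Z =>
      (((s.TP Y Z).filter fun r => ¬ s.Clean (Y ∪ Z) r.1).card : ℝ)) ≤
      EE p s.B (fun Y Z => ∑ t ∈ I,
        if ({t.1, t.2.2.2.2} : Finset V) ⊆ Y ∪ Z then (1 : ℝ) else 0) := by
    refine EE_mono p hp.le (by linarith) s.B _ _ fun Y hY Z hZ => ?_
    refine card_le_sum_ind _ I (fun t => (t.1, t.2.1)) _ ?_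
    rintro ⟨x, b⟩ hr
    simp only [Finset.mem_filter, Sys.TP, Finset.mem_product] at hr
    obtain ⟨⟨⟨hx, hb⟩, hbS, hxN, -, -, -⟩, hcl⟩ := hr
    unfold Sys.Clean at hcl
    push Not at hcl
    obtain ⟨a, ha, a', ha', hne, hsub⟩ := hcl
    obtain ⟨z, hz, hzx⟩ := Finset.not_subset.1 hsub
    simp only [Finset.mem_singleton] at hzx
    rw [Finset.mem_inter] at hz
    refine ⟨(x, b, a, a', z), ?_, ?_, rfl⟩
    · simp only [I, Finset.mem_filter, Finset.mem_product, Finset.mem_univ, and_true]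
      exact ⟨hY hx, hbS, ha, ha', hne, hz.1, hzx⟩
    · intro w hw
      simp only [Finset.mem_insert, Finset.mem_singleton] at hw
      rcases hw with rfl | rfl
      · exact Finset.mem_union_left _ hx
      · exact hz.2
  refine hmono.trans ?_
  rw [EE_sum]
  have h4 : ∀ t ∈ I, EE p s.B (fun Y Z =>
      if ({t.1, t.2.2.2.2} : Finset V) ⊆ Y ∪ Z then (1 : ℝ) else 0) = (2 * p) ^ 2 := by
    rintro ⟨x, b, a, a', z⟩ ht
    simp only [I, Finset.mem_filter, Finset.mem_product, Finset.mem_univ, and_true] at ht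
    obtain ⟨hx, hb, ha, ha', hne, hz, hzx⟩ := ht
    have hzB : z ∈ s.B := (Finset.mem_filter.1 (Finset.mem_inter.1 hz).1).1
    rw [EE_union p hp.le (by linarith) s.B
      (fun X => if ({x, z} : Finset V) ⊆ X then (1 : ℝ) else 0)]
    rw [Ex_subset (2 * p) s.B {x, z} (by
      intro w hw
      simp only [Finset.mem_insert, Finset.mem_singleton] at hw
      rcases hw with rfl | rfl
      · exact hx
      · exact hzB)]
    rw [Finset.card_pair (Ne.symm hzx)]
  rw [Finset.sum_congr rfl h4, Finset.sum_const, nsmul_eq_mul]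
  calc (I.card : ℝ) * (2 * p) ^ 2 ≤ (s.B.card * (q * (q * (q * (η * D))))) * (2 * p) ^ 2 :=
        mul_le_mul_of_nonneg_right hI (by positivity)
    _ = 4 * q ^ 3 * η * (p * D) * (p * s.B.card) := by ring

/-- PM-19 -/
theorem EE_near_le {V : Type} [Fintype V] (s : Sys V) (Λ D η : ℝ) (q : ℕ)
    (hs : s.OK Λ D η q) (p : ℝ) (hp : 0 < p) (h1 : p ≤ 1 / 4) :
    EE p s.B (fun Y Z => (((s.TP Y Z).filter fun r => s.Near Y Z r.1 r.2).card : ℝ)) ≤
      q ^ 2 * η * (p * D) ^ 2 * (p * s.B.card) := by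
  -- the index set: x, a, a', (y, w)
  let I : Finset (V × V × V × V × V) := (s.B ×ˢ (univ ×ˢ (univ ×ˢ (univ ×ˢ univ)))).filter fun t =>
    t.2.1 ∈ s.S t.1 ∧ t.2.2.1 ∈ s.S t.1 ∧ t.2.2.2.1 ∈ s.N t.2.2.1 ∧ t.2.2.2.2 ∈ s.N t.2.1 ∧
      s.G.Adj t.2.2.2.1 t.2.2.2.2 ∧ t.2.2.2.1 ≠ t.1 ∧ t.2.2.2.2 ≠ t.1
  have hηD : 0 ≤ η * D ^ 2 := mul_nonneg hs.eta_pos.le (sq_nonneg _)
  have hI : (I.card : ℝ) ≤ s.B.card * (q * (q * (η * D ^ 2))) := by
    have e1 : I ⊆ s.B.biUnion fun x => (s.S x).biUnion fun a => (s.S x).biUnion fun a' =>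
          (((s.N a') ×ˢ (s.N a)).filter fun p => s.G.Adj p.1 p.2).image
            fun z => (x, a, a', z.1, z.2) := by
      rintro ⟨x, a, a', y, w⟩ ht
      simp only [I, Finset.mem_filter, Finset.mem_product, Finset.mem_univ, and_true] at ht
      obtain ⟨hx, ha, ha', hy, hw, hyw, -, -⟩ := ht
      simp only [Finset.mem_biUnion]
      refine ⟨x, hx, a, ha, a', ha', ?_⟩
      exact Finset.mem_image.2 ⟨(y, w), Finset.mem_filter.2
        ⟨Finset.mem_product.2 ⟨hy, hw⟩, hyw⟩, rfl⟩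
    have e2 : (I.card : ℝ) ≤ ∑ x ∈ s.B, ∑ a ∈ s.S x, ∑ a' ∈ s.S x, (η * D ^ 2) := by
      have h3 : I.card ≤ ∑ x ∈ s.B, ∑ a ∈ s.S x, ∑ a' ∈ s.S x,
          (((s.N a') ×ˢ (s.N a)).filter fun p => s.G.Adj p.1 p.2).card := by
        refine ((Finset.card_le_card e1).trans Finset.card_biUnion_le).trans
          (Finset.sum_le_sum fun x _ => ?_)
        refine Finset.card_biUnion_le.trans (Finset.sum_le_sum fun a _ => ?_)
        refine Finset.card_biUnion_le.trans (Finset.sum_le_sum fun a' _ => ?_)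
        exact Finset.card_image_le
      refine le_trans (Nat.cast_le.2 h3) ?_
      push_cast
      refine Finset.sum_le_sum fun x hx => Finset.sum_le_sum fun a ha =>
        Finset.sum_le_sum fun a' ha' => ?_
      exact hs.sparse a' (hs.own x hx a' ha').1 a (hs.own x hx a ha).1
    refine e2.trans ?_
    simp only [Finset.sum_const, nsmul_eq_mul]
    calc ∑ x ∈ s.B, ((s.S x).card : ℝ) * ((s.S x).card * (η * D ^ 2))
        ≤ ∑ x ∈ s.B, (q : ℝ) * (q * (η * D ^ 2)) := by
          refine Finset.sum_le_sum fun x hx => ?_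
          have hq : ((s.S x).card : ℝ) ≤ q := by exact_mod_cast hs.own_card x hx
          gcongr
      _ = s.B.card * (q * (q * (η * D ^ 2))) := by rw [Finset.sum_const, nsmul_eq_mul]
  have hmono : EE p s.B (fun Y Z =>
      (((s.TP Y Z).filter fun r => s.Near Y Z r.1 r.2).card : ℝ)) ≤
      EE p s.B (fun Y Z => ∑ t ∈ I,
        if ({t.1, t.2.2.2.1} : Finset V) ⊆ Y ∧ ({t.2.2.2.2} : Finset V) ⊆ Z then
          (1 : ℝ) else 0) := by
    refine EE_mono p hp.le (by linarith) s.B _ _ fun Y hY Z hZ => ?_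
    refine card_le_sum_ind _ I (fun t => (t.1, t.2.1)) _ ?_
    rintro ⟨x, a⟩ hr
    simp only [Finset.mem_filter, Sys.TP, Finset.mem_product] at hr
    obtain ⟨⟨⟨hx, ha⟩, haS, hxN, -, -, -⟩, a', ha', y, hy, w, hw, hyw⟩ := hr
    have haS' : a' ∈ s.S x := (Finset.mem_filter.1 ha').2
    obtain ⟨hyx, hy⟩ := Finset.mem_erase.1 hy
    rw [Finset.mem_inter] at hy hw
    have hwx : w ≠ x := by
      rintro rfl
      exact (Finset.mem_sdiff.1 (hZ hw.2)).2 hx
    refine ⟨(x, a, a', y, w), ?_, ⟨?_, ?_⟩, rfl⟩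
    · simp only [I, Finset.mem_filter, Finset.mem_product, Finset.mem_univ, and_true]
      exact ⟨hY hx, haS, haS', hy.1, hw.1, hyw, hyx, hwx⟩
    · intro v hv
      simp only [Finset.mem_insert, Finset.mem_singleton] at hv
      rcases hv with rfl | rfl
      · exact hx
      · exact hy.2
    · simpa using hw.2
  refine hmono.trans ?_
  rw [EE_sum]
  have h4 : ∀ t ∈ I, EE p s.B (fun Y Z =>
      if ({t.1, t.2.2.2.1} : Finset V) ⊆ Y ∧ ({t.2.2.2.2} : Finset V) ⊆ Z then
        (1 : ℝ) else 0) = p ^ 3 := by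
    rintro ⟨x, a, a', y, w⟩ ht
    simp only [I, Finset.mem_filter, Finset.mem_product, Finset.mem_univ, and_true] at ht
    obtain ⟨hx, ha, ha', hy, hw, hyw, hyx, hwx⟩ := ht
    have hyB : y ∈ s.B := (Finset.mem_filter.1 hy).1
    have hwB : w ∈ s.B := (Finset.mem_filter.1 hw).1
    rw [EE_subset p hp.le (by linarith) s.B {x, y} {w} (by
      intro v hv
      simp only [Finset.mem_insert, Finset.mem_singleton] at hv
      rcases hv with rfl | rfl
      · exact hx
      · exact hyB) (by simpa using hwB) (by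
      rw [Finset.disjoint_singleton_right]
      intro hv
      simp only [Finset.mem_insert, Finset.mem_singleton] at hv
      rcases hv with rfl | rfl
      · exact hwx rfl
      · exact hyw.ne rfl)]
    rw [Finset.card_pair (Ne.symm hyx), Finset.card_singleton]
  rw [Finset.sum_congr rfl h4, Finset.sum_const, nsmul_eq_mul]
  calc (I.card : ℝ) * p ^ 3 ≤ (s.B.card * (q * (q * (η * D ^ 2)))) * p ^ 3 :=
        mul_le_mul_of_nonneg_right hI (by positivity)
    _ = q ^ 2 * η * (p * D) ^ 2 * (p * s.B.card) := by ring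

end Pool.Agent.Helper35.PM
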