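import Pool.Agent.Helper35.PM.Defs3
import Pool.Agent.Helper46.PM.Pairs

/-!
PM-35, PM-36, PM-37, PM-38: the linear bound and its dense case.
-/

set_option autoImplicit false

namespace Pool.Agent.Helper35.PM

open Finset
open scoped Classical

/-- pivots of an induced subgraph lift -/
theorem pivot_lift {V : Type} (S : Set V) (G : SimpleGraph V) (B : SimpleGraph S)
    (h : PivotStep (G.induce S) B) : ∃ G' : SimpleGraph V, PivotStep G G' ∧ G'.induce S = B := by
  obtain ⟨u, v, huv, rfl⟩ := h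
  refine ⟨_, ⟨u.1, v.1, huv, rfl⟩, ?_⟩
  ext x y
  simp only [SimpleGraph.comap_adj, SimpleGraph.fromRel_adj, Function.Embedding.subtype_apply,
    ne_eq, Subtype.ext_iff, SimpleGraph.induce]

theorem pivots_lift {V : Type} (S : Set V) (G : SimpleGraph V) (B : SimpleGraph S)
    (h : Relation.ReflTransGen PivotStep (G.induce S) B) :
    ∃ G' : SimpleGraph V, Relation.ReflTransGen PivotStep G G' ∧ G'.induce S = B := by
  induction h with
  | refl => exact ⟨G, .refl, rfl⟩
  | tail _ hbc ih =>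
    obtain ⟨G', h1, rfl⟩ := ih
    obtain ⟨G'', h2, h3⟩ := pivot_lift S G' _ hbc
    exact ⟨G'', h1.tail h2, h3⟩

/-- PM-35: pivot-minors of induced subgraphs. -/
theorem hasPM_of_induce {V W : Type} (H : SimpleGraph W) (G : SimpleGraph V) (S : Set V)
    (h : HasPM H (G.induce S)) : HasPM H G := by
  obtain ⟨B, h1, ⟨e⟩⟩ := h
  obtain ⟨G', h2, rfl⟩ := pivots_lift S G B h1
  exact ⟨G', h2, ⟨e.trans (SimpleGraph.Embedding.induce S)⟩⟩

/-- A subset of prescribed size with at least the average sum. -/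
theorem exists_subset_avg {V : Type} (f : V → ℕ) (n : ℕ) : ∀ (m : ℕ) (U : Finset V),
    U.card = n + m → ∃ U' ⊆ U, U'.card = n ∧ n * ∑ u ∈ U, f u ≤ U.card * ∑ u ∈ U', f u := by
  intro m
  induction m with
  | zero =>
    intro U hU
    exact ⟨U, Finset.Subset.refl U, hU, by rw [hU, add_zero]⟩
  | succ m ih =>
    intro U hU
    have hne : U.Nonempty := by
      rw [← Finset.card_pos]
      omega
    obtain ⟨u, hu, hmin⟩ := Finset.exists_min_image U f hne
    have h1 : (U.erase u).card = n + m := by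
      rw [Finset.card_erase_of_mem hu, hU]
      omega
    obtain ⟨U', hU', hc, hle⟩ := ih (U.erase u) h1
    refine ⟨U', hU'.trans (Finset.erase_subset _ _), hc, ?_⟩
    have h2 : U.card * f u ≤ ∑ x ∈ U, f x := by
      rw [← smul_eq_mul, ← Finset.sum_const]
      exact Finset.sum_le_sum fun x hx => hmin x hx
    have h3 : f u + ∑ x ∈ U.erase u, f x = ∑ x ∈ U, f x := Finset.add_sum_erase U f hu
    rw [h1] at hle
    rcases Nat.eq_zero_or_pos (n + m) with h0 | h0
    · have : n = 0 := by omega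
      subst this
      simp
    · have h4 : (n + m) * ∑ x ∈ U, f x ≤ U.card * ∑ x ∈ U.erase u, f x := by
        rw [← h3] at h2 ⊢
        rw [hU] at h2 ⊢
        nlinarith
      refine le_of_mul_le_mul_left (a := n + m) ?_ h0
      calc (n + m) * (n * ∑ x ∈ U, f x) = n * ((n + m) * ∑ x ∈ U, f x) := by ring
        _ ≤ n * (U.card * ∑ x ∈ U.erase u, f x) := Nat.mul_le_mul_left _ h4
        _ = U.card * (n * ∑ x ∈ U.erase u, f x) := by ring
        _ ≤ U.card * ((n + m) * ∑ x ∈ U', f x) := Nat.mul_le_mul_left _ hle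
        _ = (n + m) * (U.card * ∑ x ∈ U', f x) := by ring

theorem exists_dense_left {V : Type} (G : SimpleGraph V) (ε : ℝ) (n : ℕ)
    (U W : Finset V) (hU : n ≤ U.card)
    (h : ε * (U.card * W.card) ≤ (ePairs G U W : ℝ)) :
    ∃ U' ⊆ U, U'.card = n ∧ ε * (n * W.card) ≤ (ePairs G U' W : ℝ) := by
  obtain ⟨U', h1, h2, h3⟩ := exists_subset_avg (fun u => H46.dgr G u W) n (U.card - n) U (by omega)
  refine ⟨U', h1, h2, ?_⟩
  rw [← H46.ePairs_eq_sum, ← H46.ePairs_eq_sum] at h3
  rcases Nat.eq_zero_or_pos U.card with h0 | h0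
  · have : n = 0 := by omega
    subst this
    simp
  · have h4 : (n : ℝ) * (ePairs G U W : ℝ) ≤ (U.card : ℝ) * (ePairs G U' W : ℝ) := by
      exact_mod_cast h3
    have h5 : (0 : ℝ) < U.card := by exact_mod_cast h0
    have h6 : (U.card : ℝ) * (ε * (n * W.card)) ≤ (U.card : ℝ) * (ePairs G U' W : ℝ) := by
      refine le_trans ?_ h4
      have h7 := mul_le_mul_of_nonneg_left h (Nat.cast_nonneg (α := ℝ) n)
      linarith [h7, (by ring : (U.card : ℝ) * (ε * (n * W.card)) =
        (n : ℝ) * (ε * (U.card * W.card)))]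
    exact le_of_mul_le_mul_left h6 h5

/-- PM-36: dense pairs of prescribed size. -/
theorem exists_dense_subpair {V : Type} [Fintype V] (G : SimpleGraph V) (ε : ℝ) (n : ℕ)
    (hn : 0 < n) (U W : Finset V) (hU : n ≤ U.card) (hW : n ≤ W.card)
    (h : ε * (U.card * W.card) ≤ (ePairs G U W : ℝ)) :
    ∃ U' ⊆ U, ∃ W' ⊆ W, U'.card = n ∧ W'.card = n ∧ ε * (n * n) ≤ (ePairs G U' W' : ℝ) := by
  rcases le_total 0 ε with hε | hε
  · obtain ⟨U', h1, h2, h3⟩ := exists_dense_left G ε n U W hU h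
    rw [H46.ePairs_comm, ← h2, mul_comm (U'.card : ℝ) (W.card : ℝ)] at h3
    obtain ⟨W', h4, h5, h6⟩ := exists_dense_left G ε n W U' hW h3
    rw [H46.ePairs_comm, h2] at h6
    exact ⟨U', h1, W', h4, h2, h5, h6⟩
  · obtain ⟨U', h1, h2⟩ := Finset.exists_subset_card_eq hU
    obtain ⟨W', h3, h4⟩ := Finset.exists_subset_card_eq hW
    refine ⟨U', h1, W', h3, h2, h4, le_trans ?_ (Nat.cast_nonneg _)⟩
    exact mul_nonpos_of_nonpos_of_nonneg hε (by positivity)

/-- PM-37 (uses PM-34). -/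
theorem kts_bound {W : Type} (H : SimpleGraph W) (h : DenseSpotStatement H) :
    ∃ K : ℝ, 0 < K ∧ ∀ t s : ℕ, 0 < t → 0 < s → ∀ (V : Type) [Fintype V] (G : SimpleGraph V),
      NoK G t s → ¬ HasPM H G → (ePairs G univ univ : ℝ) ≤ K ^ t * s * Fintype.card V := by
  obtain ⟨ε, γ, d₀, hε, hγ, hd₀, hmain⟩ := h
  set e : ℝ := min ε 1 with he
  set g : ℝ := min γ 1 with hg
  have he0 : 0 < e := lt_min hε one_pos
  have hg0 : 0 < g := lt_min hγ one_pos
  have he1 : e ≤ 1 := min_le_right _ _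
  have hg1 : g ≤ 1 := min_le_right _ _
  have heε : e ≤ ε := min_le_left _ _
  have hgγ : g ≤ γ := min_le_left _ _
  refine ⟨2 + d₀ + 4 / (e * g) + (4 / e) ^ 2 / g, by positivity, ?_⟩
  intro t s ht hs V _ G hNo hPM
  set K : ℝ := 2 + d₀ + 4 / (e * g) + (4 / e) ^ 2 / g with hK
  have p1 : 0 < 4 / (e * g) := by positivity
  have p2 : 0 < (4 / e) ^ 2 / g := by positivity
  have hK2 : 2 ≤ K := by rw [hK]; linarith
  have hKd : d₀ ≤ K := by rw [hK]; linarith
  have hK4 : 4 / (e * g) ≤ K := by rw [hK]; linarith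
  have hK16 : (4 / e) ^ 2 / g ≤ K := by rw [hK]; linarith
  have hK0 : 0 < K := by linarith
  have hs1 : (1 : ℝ) ≤ s := by exact_mod_cast hs
  by_contra hlt
  push Not at hlt
  have hne : Nonempty V := by
    by_contra hcon
    rw [not_nonempty_iff] at hcon
    have h1 : (univ : Finset V) = ∅ := Finset.univ_eq_empty
    have h2 : ePairs G univ univ = 0 := by
      unfold ePairs
      rw [h1]
      simp
    rw [h2, Fintype.card_eq_zero] at hlt
    simp at hlt
  have hKt : K * t ≤ K ^ t := by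
    obtain ⟨t', rfl⟩ : ∃ t', t = t' + 1 := ⟨t - 1, by omega⟩
    rw [pow_succ, mul_comm]
    refine mul_le_mul_of_nonneg_right ?_ hK0.le
    calc ((t' + 1 : ℕ) : ℝ) ≤ (2 : ℝ) ^ t' := by exact_mod_cast Nat.lt_two_pow_self
      _ ≤ K ^ t' := pow_le_pow_left₀ (by norm_num) hK2 _
  have ht1 : (1 : ℝ) ≤ t := by exact_mod_cast ht
  have hKtK : K ≤ K ^ t := le_trans (by nlinarith) hKt
  have hd : d₀ ≤ K ^ t * s := by
    calc d₀ ≤ K := hKd
      _ ≤ K ^ t := hKtK
      _ ≤ K ^ t * s := le_mul_of_one_le_right (by positivity) hs1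
  have hns : ¬ NoSpot G ε γ (K ^ t * s) := fun hn => hPM (hmain V G _ hd hlt.le hn)
  unfold NoSpot at hns
  push Not at hns
  obtain ⟨U, W', hU, hW, hUW⟩ := hns
  have hUg : g * (K ^ t * s) ≤ U.card := le_trans (mul_le_mul_of_nonneg_right hgγ (by positivity)) hU
  have hWg : g * (K ^ t * s) ≤ W'.card := le_trans (mul_le_mul_of_nonneg_right hgγ (by positivity)) hW
  have h4t : 4 * t ≤ e * U.card := by
    have h1 : 4 ≤ e * g * K := by
      have := mul_le_mul_of_nonneg_left hK4 (mul_pos he0 hg0).le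
      rwa [mul_div_cancel₀ _ (mul_pos he0 hg0).ne'] at this
    calc (4 : ℝ) * t ≤ e * g * K * t := mul_le_mul_of_nonneg_right h1 (by positivity)
      _ = e * (g * (K * t)) := by ring
      _ ≤ e * (g * (K ^ t * s)) := by
        refine mul_le_mul_of_nonneg_left (mul_le_mul_of_nonneg_left ?_ hg0.le) he0.le
        exact hKt.trans (le_mul_of_one_le_right (by positivity) hs1)
      _ ≤ e * U.card := mul_le_mul_of_nonneg_left hUg he0.le
  obtain ⟨T, S, -, -, hT, hS, hcomp⟩ := exists_Kts t e he0 he1 G U W' h4t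
    (le_trans (mul_le_mul_of_nonneg_right heε (by positivity)) hUW)
  have hsS : (s : ℝ) ≤ S.card := by
    have h1 : 1 ≤ (e / 4) ^ 2 * g * K := by
      have h2 := mul_le_mul_of_nonneg_left hK16 (show 0 ≤ (e / 4) ^ 2 * g by positivity)
      have h3 : (e / 4) ^ 2 * g * ((4 / e) ^ 2 / g) = 1 := by
        field_simp
      linarith
    have h2 : (e / 4) ^ 2 * g * K ≤ ((e / 4) ^ 2 * g * K) ^ t := le_self_pow₀ h1 ht.ne'
    have h3 : ((e / 4) ^ 2 * g * K) ^ t ≤ (e / 4) ^ (t + 1) * g * K ^ t := by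
      rw [mul_pow, mul_pow, ← pow_mul]
      refine mul_le_mul_of_nonneg_right ?_ (by positivity)
      refine mul_le_mul ?_ ?_ (by positivity) (by positivity)
      · exact pow_le_pow_of_le_one (by positivity) (by linarith) (by omega)
      · exact pow_le_of_le_one hg0.le hg1 ht.ne'
    calc (s : ℝ) = 1 * s := (one_mul _).symm
      _ ≤ ((e / 4) ^ (t + 1) * g * K ^ t) * s :=
        mul_le_mul_of_nonneg_right (h1.trans (h2.trans h3)) (by positivity)
      _ = (e / 4) ^ (t + 1) * (g * (K ^ t * s)) := by ring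
      _ ≤ (e / 4) ^ (t + 1) * W'.card := mul_le_mul_of_nonneg_left hWg (by positivity)
      _ ≤ S.card := hS
  obtain ⟨S', hS'S, hS'⟩ := Finset.exists_subset_card_eq (show s ≤ S.card by exact_mod_cast hsS)
  exact hNo ⟨T, S', hT, hS', fun a ha b hb => hcomp a ha b (hS'S hb)⟩

theorem ePairs_induce {V : Type} (G : SimpleGraph V) (U W : Finset V) (S : Set V)
    [Fintype S] (hU : ↑U ⊆ S) (hW : ↑W ⊆ S) : ePairs G U W ≤ ePairs (G.induce S) univ univ := by
  unfold ePairs
  refine le_trans (Finset.card_le_card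
    (t := (((univ : Finset S) ×ˢ (univ : Finset S)).filter fun p =>
      (G.induce S).Adj p.1 p.2).image fun p => ((p.1 : V), (p.2 : V))) ?_) Finset.card_image_le
  intro p hp
  obtain ⟨h1, h2⟩ := Finset.mem_filter.1 hp
  obtain ⟨h3, h4⟩ := Finset.mem_product.1 h1
  refine Finset.mem_image.2 ⟨(⟨p.1, hU h3⟩, ⟨p.2, hW h4⟩), ?_, rfl⟩
  exact Finset.mem_filter.2 ⟨Finset.mem_product.2 ⟨Finset.mem_univ _, Finset.mem_univ _⟩, h2⟩

theorem dense_of_linear {W : Type} (H : SimpleGraph W) (h : LinearQ H) : DenseQ H := by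
  obtain ⟨C, hC, hmain⟩ := h
  intro ε hε
  have hc : 0 < ε / (4 * C) := by positivity
  refine ⟨ε / (4 * C), hc, ?_⟩
  intro V _ G hPM hE
  set c : ℝ := ε / (4 * C) with hcdef
  set n : ℝ := (Fintype.card V : ℝ) with hn
  rcases Nat.eq_zero_or_pos (Fintype.card V) with h0 | h0
  · refine ⟨∅, ∅, ?_, ?_, ?_⟩
    · rw [hn, h0]
      simp
    · rw [hn, h0]
      simp
    · intro a ha
      simp at ha
  · have hn0 : 0 < n := by
      rw [hn]
      exact_mod_cast h0
    by_contra hcon
    have hs0 : 0 < ⌈c * n⌉₊ := Nat.ceil_pos.2 (by positivity)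
    have hNo : NoK G ⌈c * n⌉₊ ⌈c * n⌉₊ := by
      rintro ⟨A, B, hA, hB, hAB⟩
      exact hcon ⟨A, B, by rw [hA]; exact Nat.le_ceil _, by rw [hB]; exact Nat.le_ceil _, hAB⟩
    have hle := hmain _ hs0 V G hNo hPM
    rw [← hn] at hle
    rcases lt_or_ge (c * n) 1 with h1 | h1
    · have h2 : ⌈c * n⌉₊ = 1 := by
        apply le_antisymm _ hs0
        exact Nat.ceil_le.2 (by push_cast; exact h1.le)
      have h3 : (0 : ℝ) < ePairs G univ univ := lt_of_lt_of_le (by positivity) hE
      have h4 : 0 < ePairs G univ univ := by exact_mod_cast h3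
      unfold ePairs at h4
      obtain ⟨p, hp⟩ := Finset.card_pos.1 h4
      have h5 := (Finset.mem_filter.1 hp).2
      rw [h2] at hNo
      refine hNo ⟨{p.1}, {p.2}, by simp, by simp, ?_⟩
      intro a ha b hb
      rw [Finset.mem_singleton] at ha hb
      rw [ha, hb]
      exact h5
    · have h2 : (⌈c * n⌉₊ : ℝ) ≤ 2 * (c * n) := by
        have := (Nat.ceil_lt_add_one (show 0 ≤ c * n by positivity)).le
        linarith
      have h3 : C * (⌈c * n⌉₊ : ℝ) * n ≤ C * (2 * (c * n)) * n :=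
        mul_le_mul_of_nonneg_right (mul_le_mul_of_nonneg_left h2 hC.le) hn0.le
      have h4 : C * (2 * (c * n)) * n = ε / 2 * n ^ 2 := by
        rw [hcdef]
        field_simp
        ring
      have h5 : 0 < ε * n ^ 2 := by positivity
      nlinarith

theorem linear_of_dense {W : Type} (H : SimpleGraph W) (h : DenseSpotStatement H)
    (hD : DenseQ H) : LinearQ H := by
  obtain ⟨ε, γ, d₀, hε, hγ, hd₀, hmain⟩ := h
  set e : ℝ := min ε 1 with he
  set g : ℝ := min γ 1 with hg
  have he0 : 0 < e := lt_min hε one_pos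
  have hg0 : 0 < g := lt_min hγ one_pos
  have heε : e ≤ ε := min_le_left _ _
  have hgγ : g ≤ γ := min_le_left _ _
  obtain ⟨c, hc, hdense⟩ := hD (e / 4) (by positivity)
  refine ⟨d₀ + 1 / (c * g), by positivity, ?_⟩
  intro s hs V _ G hNo hPM
  set C : ℝ := d₀ + 1 / (c * g) with hC
  have hC0 : 0 < C := by positivity
  have hs1 : (1 : ℝ) ≤ s := by exact_mod_cast hs
  have hcC : 1 ≤ c * g * C := by
    rw [hC, mul_add, mul_one_div_cancel (mul_pos hc hg0).ne']
    have : 0 < c * g * d₀ := by positivity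
    linarith
  by_contra hlt
  push Not at hlt
  have hne : Nonempty V := by
    by_contra hcon
    rw [not_nonempty_iff] at hcon
    have h1 : (univ : Finset V) = ∅ := Finset.univ_eq_empty
    have h2 : ePairs G univ univ = 0 := by
      unfold ePairs
      rw [h1]
      simp
    rw [h2, Fintype.card_eq_zero] at hlt
    simp at hlt
  have hd : d₀ ≤ C * s := by
    have h1 : d₀ ≤ C := by
      rw [hC]
      have : 0 < 1 / (c * g) := by positivity
      linarith
    exact h1.trans (le_mul_of_one_le_right hC0.le hs1)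
  have hns : ¬ NoSpot G ε γ (C * s) := fun hn => hPM (hmain V G _ hd hlt.le hn)
  unfold NoSpot at hns
  push Not at hns
  obtain ⟨U, W', hU, hW, hUW⟩ := hns
  have hUg : g * (C * s) ≤ U.card := le_trans (mul_le_mul_of_nonneg_right hgγ (by positivity)) hU
  have hWg : g * (C * s) ≤ W'.card := le_trans (mul_le_mul_of_nonneg_right hgγ (by positivity)) hW
  have hn0 : 0 < ⌈g * (C * s)⌉₊ := Nat.ceil_pos.2 (by positivity)
  obtain ⟨U', hU'U, W'', hW'', hcU, hcW, hE⟩ := exists_dense_subpair G e ⌈g * (C * s)⌉₊ hn0 U W'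
    (Nat.ceil_le.2 hUg) (Nat.ceil_le.2 hWg)
    (le_trans (mul_le_mul_of_nonneg_right heε (by positivity)) hUW)
  set m : ℕ := ⌈g * (C * s)⌉₊ with hm
  have hmg : g * (C * s) ≤ m := Nat.le_ceil _
  set S : Set V := ((U' ∪ W'' : Finset V) : Set V) with hS
  have hcardS : Fintype.card S = (U' ∪ W'').card := Fintype.card_coe (U' ∪ W'')
  have hS1 : m ≤ Fintype.card S := by
    rw [hcardS, ← hcU]
    exact Finset.card_le_card Finset.subset_union_left
  have hS2 : Fintype.card S ≤ 2 * m := by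
    rw [hcardS]
    refine (Finset.card_union_le _ _).trans ?_
    omega
  have hPM' : ¬ HasPM H (G.induce S) := fun hp => hPM (hasPM_of_induce H G S hp)
  have hE' : e / 4 * (Fintype.card S : ℝ) ^ 2 ≤ ePairs (G.induce S) univ univ := by
    have h1 : ePairs G U' W'' ≤ ePairs (G.induce S) univ univ :=
      ePairs_induce G U' W'' S (by rw [hS]; push_cast; exact Set.subset_union_left)
        (by rw [hS]; push_cast; exact Set.subset_union_right)
    have h2 : (ePairs G U' W'' : ℝ) ≤ ePairs (G.induce S) univ univ := by exact_mod_cast h1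
    refine le_trans ?_ (hE.trans h2)
    have h3 : (Fintype.card S : ℝ) ≤ 2 * m := by exact_mod_cast hS2
    have h4 : (Fintype.card S : ℝ) ^ 2 ≤ (2 * m) ^ 2 :=
      pow_le_pow_left₀ (Nat.cast_nonneg _) h3 2
    have h5 := mul_le_mul_of_nonneg_left h4 (show 0 ≤ e / 4 by positivity)
    linarith [h5, (by ring : e / 4 * (2 * (m : ℝ)) ^ 2 = e * (m * m))]
  obtain ⟨A, B, hA, hB, hAB⟩ := hdense S (G.induce S) hPM' hE'
  have key : ∀ X : Finset S, c * (Fintype.card S : ℝ) ≤ X.card → s ≤ X.card := by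
    intro X hX
    have h1 : (s : ℝ) ≤ X.card := by
      calc (s : ℝ) = 1 * s := (one_mul _).symm
        _ ≤ (c * g * C) * s := mul_le_mul_of_nonneg_right hcC (by positivity)
        _ = c * (g * (C * s)) := by ring
        _ ≤ c * m := mul_le_mul_of_nonneg_left hmg hc.le
        _ ≤ c * (Fintype.card S : ℝ) :=
          mul_le_mul_of_nonneg_left (by exact_mod_cast hS1) hc.le
        _ ≤ X.card := hX
    exact_mod_cast h1
  obtain ⟨A', hA', hA's⟩ := Finset.exists_subset_card_eq (key A hA)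
  obtain ⟨B', hB', hB's⟩ := Finset.exists_subset_card_eq (key B hB)
  refine hNo ⟨A'.map (Function.Embedding.subtype _), B'.map (Function.Embedding.subtype _),
    by rw [Finset.card_map, hA's], by rw [Finset.card_map, hB's], ?_⟩
  intro a ha b hb
  obtain ⟨a', ha', rfl⟩ := Finset.mem_map.1 ha
  obtain ⟨b', hb', rfl⟩ := Finset.mem_map.1 hb
  exact hAB a' (hA' ha') b' (hB' hb')

/-- PM-38: the linear bound is equivalent to its dense case. -/
theorem linear_iff_dense {W : Type} (H : SimpleGraph W) (h : DenseSpotStatement H) :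
    LinearQ H ↔ DenseQ H :=
  ⟨dense_of_linear H, linear_of_dense H h⟩

end Pool.Agent.Helper35.PM
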