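import Pool.Agent.Helper20.PM.Rooted
import Pool.Agent.Helper2.PM.Mader
import Pool.Agent.Helper2.PM.Rooted
import Pool.Agent.Helper96.PM.Pairs
import Pool.Agent.Helper96.PM.Disj
import Pool.Agent.Helper96.PM.LeafFinal

/-!
PM-26: many good owned triples give a projective space.
-/

set_option autoImplicit false

namespace Pool.Agent.Helper35.PM

open Finset
open scoped Classical

/-- the free elements are pairwise non-adjacent -/
theorem free_indep {V : Type} (s : Sys V) (Λ D η : ℝ) (q : ℕ) (hs : s.OK Λ D η q) (X : Finset V)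
    (hX : X ⊆ s.B) : ∀ x ∈ s.Free X, ∀ y ∈ s.Free X, ¬ s.G.Adj x y := by
  intro x hx y hy hxy
  obtain ⟨hxX, hxd⟩ := Finset.mem_filter.1 hx
  obtain ⟨hyX, hyd⟩ := Finset.mem_filter.1 hy
  rcases hs.back_cover x (hX hxX) y (hX hyX) hxy with h | h
  · exact Finset.disjoint_left.1 hxd h hyX
  · exact Finset.disjoint_left.1 hyd h hxX

/-- adjacency of a column to a free row -/
theorem adj_iff_mem {V : Type} (s : Sys V) (X : Finset V) (hX : X ⊆ s.B) (a v : V)
    (hv : v ∈ s.Free X) : s.G.Adj a v ↔ v ∈ s.N a ∩ X := by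
  have hvX := (Finset.mem_filter.1 hv).1
  rw [Finset.mem_inter, Sys.N, Finset.mem_filter]
  exact ⟨fun h => ⟨⟨hX hvX, h⟩, hvX⟩, fun h => h.1.2⟩

/-- the edges of the graph of the active columns join free elements -/
theorem QG_free {V : Type} (s : Sys V) (X : Finset V) (x y : V) (h : (s.QG X).Adj x y) :
    x ∈ s.Free X ∧ y ∈ s.Free X := by
  obtain ⟨hne, a, ha, hN⟩ := h
  have h1 := (Finset.mem_filter.1 ha).2.2.1
  rw [hN] at h1
  exact ⟨h1 (by simp), h1 (by simp)⟩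

/-- connected sets that contain a free element consist of free elements -/
theorem conn_free {V : Type} (s : Sys V) (X S : Finset V) (hS : ConnIn (s.QG X) S) (x : V)
    (hx : x ∈ S) (hxF : x ∈ s.Free X) : S ⊆ s.Free X := by
  by_contra hcon
  have h1 : S ∩ s.Free X ≠ S := fun h => hcon (Finset.inter_eq_left.1 h)
  obtain ⟨u, hu, v, hv, huv⟩ := hS.2 (S ∩ s.Free X) Finset.inter_subset_left
    ⟨x, Finset.mem_inter.2 ⟨hx, hxF⟩⟩ h1
  rw [Finset.mem_sdiff] at hv
  exact hv.2 (Finset.mem_inter.2 ⟨hv.1, (QG_free s X u v huv).2⟩)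

/-- PM-26: uses PM-10, 11, 12, 23, 24, 25. -/
theorem hasPG_of_GTP (k : ℕ) (hk : 2 ≤ k) : ∃ (κ : ℕ) (M : ℝ), 0 < M ∧
    ∀ (V : Type) [Fintype V] (s : Sys V) (Λ D η : ℝ) (q : ℕ), s.OK Λ D η q →
      ∀ Y ⊆ s.B, ∀ Z ⊆ s.B \ Y, M * (Y ∪ Z).card < (s.GTP κ Y Z).card → HasPG s.G k := by
  set r : ℕ := Fintype.card {S : Finset (Fin k) // 2 ≤ S.card} with hr
  obtain ⟨M, hM, hleaf⟩ := leaf_choice (3 * r) (2 ^ (6 * r + 1) + 6 * r + 2) (by positivity)
  refine ⟨3 * r, M, hM, fun V _ s Λ D η q hs Y hY Z hZ hbig => ?_⟩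
  obtain ⟨P, M₁, T, hMP, hPX, hT, hsep, h1, h2, hcard⟩ := hleaf V s Λ D η q hs Y hY Z hZ hbig
  set X := Y ∪ Z with hXdef
  have hXB : X ⊆ s.B := Finset.union_subset hY (hZ.trans Finset.sdiff_subset)
  -- the triples
  have hTP : ∀ p ∈ T, (s.N p.2 ∩ X).card = 3 ∧ s.N p.2 ∩ X ⊆ s.Free X := by
    intro p hp
    have h3 := (Finset.mem_filter.1 (hT hp)).1
    have h4 := (Finset.mem_filter.1 h3).2
    exact ⟨h4.2.2.1, h4.2.2.2.1⟩
  have hTne : T.Nonempty := by
    rw [← Finset.card_pos]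
    have h3 : (0 : ℝ) < T.card := lt_of_le_of_lt (by positivity) hcard
    exact_mod_cast h3
  have hPne : P.Nonempty := by
    obtain ⟨p, hp⟩ := hTne
    have h3 : (s.N p.2 ∩ X).Nonempty := by
      rw [← Finset.card_pos, (hTP p hp).1]
      norm_num
    exact h3.mono ((h1 p hp).trans hMP)
  have hcardN : (2 ^ (6 * r + 1) + 6 * r + 2) * P.card < T.card := by
    have h3 : (((2 ^ (6 * r + 1) + 6 * r + 2) * P.card : ℕ) : ℝ) < (T.card : ℕ) := by
      push_cast
      exact hcard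
    exact_mod_cast h3
  -- the model
  have h24 := ePairs_ge s Λ D η q (3 * r) hs Y Z P M₁ hY hZ T hMP hT h1 h2
  rw [← hXdef] at h24
  have hdense : 2 ^ (6 * r) * P.card ≤ ePairs (s.QG X) P P := by
    have h4 : (2 ^ (6 * r + 1) + 6 * r + 2) * P.card =
        2 * (2 ^ (6 * r) * P.card) + 6 * r * P.card + 2 * P.card := by ring
    rw [h4] at hcardN
    generalize 2 ^ (6 * r) * P.card = A at hcardN ⊢
    generalize 6 * r * P.card = A' at hcardN
    omega
  obtain ⟨B, hBP, hB⟩ := model_of_dense (6 * r) (s.QG X) P hPne hdense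
  -- disjoint triples
  obtain ⟨f, hfT, hfd⟩ := exists_disjoint_triples s Λ D η q (3 * r) hs Y Z P hY hZ T hT
    (fun p hp => (h1 p hp).trans hMP) r (by
      refine le_trans ?_ hcardN.le
      refine Nat.mul_le_mul_right _ ?_
      generalize 2 ^ (6 * r + 1) = A
      omega) hTne
  let e : {S : Finset (Fin k) // 2 ≤ S.card} ≃ Fin r := Fintype.equivFin _
  have hcard3 : ∀ S, Fintype.card (s.N (f (e S)).2 ∩ X : Finset V) = 3 := by
    intro S
    rw [Fintype.card_coe]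
    exact (hTP _ (hfT (e S))).1
  let g : ∀ S, Fin 3 ≃ (s.N (f (e S)).2 ∩ X : Finset V) := fun S =>
    (Fintype.equivFinOfCardEq (hcard3 S)).symm
  let t : {S : Finset (Fin k) // 2 ≤ S.card} × Fin 3 → V := fun p => (g p.1 p.2 : V)
  have htmem : ∀ p, t p ∈ s.N (f (e p.1)).2 ∩ X := fun p => (g p.1 p.2).2
  have htinj : Function.Injective t := by
    rintro ⟨S, j⟩ ⟨S', j'⟩ h
    have hS : S = S' := by
      by_contra hne
      have h3 := hfd (e S) (e S') (fun h => hne (e.injective h))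
      refine Finset.disjoint_left.1 h3 (htmem (S, j)) ?_
      rw [h]
      exact htmem (S', j')
    subst hS
    have h4 : g S j = g S j' := Subtype.ext h
    rw [(g S).injective h4]
  have htF : ∀ p, t p ∈ s.Free X := fun p => (hTP _ (hfT (e p.1))).2 (htmem p)
  -- the terminals
  set Z0 : Finset V := univ.image t with hZ0
  have hZ0card : Z0.card = 3 * r := by
    rw [hZ0, Finset.card_image_of_injective _ htinj, Finset.card_univ, Fintype.card_prod,
      Fintype.card_fin, ← hr]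
    ring
  have hZ0P : Z0 ⊆ P := by
    intro z hz
    obtain ⟨p, -, rfl⟩ := Finset.mem_image.1 hz
    exact ((h1 _ (hfT (e p.1))).trans hMP) (htmem p)
  obtain ⟨C, hC1, hC2⟩ := rooted_model (s.QG X) Z0 (6 * r) (by rw [hZ0card]; omega) B hB (by
    intro X₁ X₂ hsepX hZX hB'
    by_contra hlt
    push Not at hlt
    rw [hZ0card] at hlt
    have hs1 : IsSep (s.QG X) X (X₁ ∩ X) (X₂ ∩ X) := by
      refine ⟨?_, ?_⟩
      · rw [← Finset.union_inter_distrib_right, hsepX.1, Finset.univ_inter]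
      · intro x hx y hy
        simp only [Finset.mem_sdiff, Finset.mem_inter] at hx hy
        exact hsepX.2 x (Finset.mem_sdiff.2 ⟨hx.1.1, fun h => hx.2 ⟨h, hx.1.2⟩⟩) y
          (Finset.mem_sdiff.2 ⟨hy.1.1, fun h => hy.2 ⟨h, hy.1.2⟩⟩)
    have hs2 : ((X₁ ∩ X) ∩ (X₂ ∩ X)).card < 3 * r := by
      refine lt_of_le_of_lt (Finset.card_le_card ?_) hlt
      intro x hx
      simp only [Finset.mem_inter] at hx ⊢
      exact ⟨hx.1.1, hx.2.1⟩
    rcases hsep _ _ hs1 hs2 with h3 | h3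
    · obtain ⟨i, hi⟩ := hB'
      obtain ⟨b, hb⟩ := (hB.1 i).1
      exact (Finset.mem_sdiff.1 (hi hb)).2 (Finset.mem_inter.1 (h3 (hBP i hb))).1
    · have h4 : Z0 ⊆ X₁ ∩ X₂ := fun z hz =>
        Finset.mem_inter.2 ⟨hZX hz, (Finset.mem_inter.1 (h3 (hZ0P hz))).1⟩
      have h5 := Finset.card_le_card h4
      omega)
  have htZ : ∀ p, t p ∈ Z0 := fun p => Finset.mem_image_of_mem t (Finset.mem_univ p)
  refine hasPG_of_rooted s.G k hk (s.Free X) (s.QG X) (free_indep s Λ D η q hs X hXB) ?_ t htF ?_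
    (fun p => C (t p)) (fun p => (hC1 _ (htZ p)).1)
    (fun p => conn_free s X _ (hC1 _ (htZ p)).2 _ (hC1 _ (htZ p)).1 (htF p))
    ⟨fun p => (hC1 _ (htZ p)).2, fun p p' hne => (hC2 _ (htZ p) _ (htZ p')
      (fun h => hne (htinj h))).1, fun p p' hne => (hC2 _ (htZ p) _ (htZ p')
      (fun h => hne (htinj h))).2⟩
  · intro x y hxy
    obtain ⟨hx, hy⟩ := QG_free s X x y hxy
    obtain ⟨hne, a, ha, hN⟩ := hxy
    refine ⟨hx, hy, a, fun v hv => ?_⟩
    rw [adj_iff_mem s X hXB a v hv, hN]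
    simp
  · intro S
    refine ⟨(f (e S)).2, fun v hv => ?_⟩
    rw [adj_iff_mem s X hXB _ v hv]
    constructor
    · intro h
      obtain ⟨j, hj⟩ := (g S).surjective ⟨v, h⟩
      refine ⟨j, ?_⟩
      change v = (g S j : V)
      rw [hj]
    · rintro ⟨j, rfl⟩
      exact htmem (S, j)

end Pool.Agent.Helper35.PM
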